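import Mathlib
import Pool.Agent.H.MP_752b71_an.A
import Pool.Agent.H.MP_7ec995_an.A

open Set Metric Filter Topology
open scoped Manifold ContDiff

namespace Pool.Agent.Results.MP_7ec995_an.Counter

section defs

variable {X : Type} [TopologicalSpace X] [ChartedSpace (ℂ × ℂ) X]

/-- `f` is a holomorphic map from the unit disc into `S`. -/
def Disc (S : Set X) (f : ℂ → X) : Prop :=
  MDifferentiableOn 𝓘(ℂ) 𝓘(ℂ, ℂ × ℂ) f (ball 0 1) ∧ MapsTo f (ball 0 1) S

variable (X) in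
/-- `X` carries a Kähler form, given by local potentials. -/
def Kahler : Prop :=
  ∃ (κ : Type) (V : κ → Set X) (ρ : κ → X → ℝ), (∀ k, IsOpen (V k)) ∧ ⋃ k, V k = univ ∧
    (∀ k, ContMDiffOn 𝓘(ℝ, ℂ × ℂ) 𝓘(ℝ) ∞ (ρ k) (V k)) ∧
    (∀ k f, Disc (V k) f → mfderiv 𝓘(ℂ) 𝓘(ℂ, ℂ × ℂ) f 0 ≠ 0 →
      0 < Laplacian.laplacian (fun z => ρ k (f z)) 0) ∧
    ∀ k l f, Disc (V k ∩ V l) f →
      Laplacian.laplacian (fun z => ρ k (f z)) 0 = Laplacian.laplacian (fun z => ρ l (f z)) 0

lemma Disc.mono {S T : Set X} {f : ℂ → X} (h : Disc S f) (hs : S ⊆ T) : Disc T f :=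
  ⟨h.1, h.2.mono_right hs⟩

lemma Disc.an {S : Set X} {f : ℂ → X} (h : Disc S f) {F : X → ℂ}
    (hF : MDifferentiableOn 𝓘(ℂ, ℂ × ℂ) 𝓘(ℂ) F S) : AnalyticAt ℂ (fun z => F (f z)) 0 :=
  (mdifferentiableOn_iff_differentiableOn.1 (hF.comp h.1 h.2)).analyticOnNhd isOpen_ball 0 (by simp)

end defs

/-- The Hartogs figure `H_n^1(r)`. -/
def Hartogs (n : ℕ) (r : ℝ) : Set ((Fin n → ℂ) × ℂ) :=
  ball 0 (1 - r) ×ˢ ball 0 1 ∪ ball 0 1 ×ˢ {w | r < ‖w‖ ∧ ‖w‖ < 1}

open H.MP_7ec995_an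
open H.MP_752b71_an (lap cN)

noncomputable def R (p : P) : ℝ := ∑ j, ((p j).re ^ 2 + (p j).im ^ 2)

lemma R_pos (α e) : 0 < R (s α e) :=
  Finset.sum_pos' (fun _ _ => by positivity) ⟨α, Finset.mem_univ _, by simp [s_a]⟩

lemma kahler : Kahler X := by
  have an : ∀ α f, Disc (U α) f → ∀ j, AnalyticAt ℂ (fun z => l α (f z) j) 0 :=
    fun α f hf j => hf.an (md_comp α (s1 α j))
  refine ⟨Fin 3, U, fun α q => Real.log (R (l α q)), U_open,
    eq_univ_of_forall fun q => mem_iUnion.2 ((cover' q).imp fun _ h => h.1), fun α => ?_,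
    fun α f hf h0 => ?_, fun α β f hf => ?_⟩
  · have : ContDiff ℝ ∞ fun e => Real.log (R (s α e)) := by
      refine ContDiff.log (ContDiff.sum fun j _ => ?_) fun e => (R_pos α e).ne'
      have h : ContDiff ℝ ∞ fun e => s α e j := ((s1 α j).restrict_scalars ℝ).of_le le_top
      exact ((Complex.reCLM.contDiff.comp h).pow 2).add ((Complex.imCLM.contDiff.comp h).pow 2)
    exact this.contMDiff.comp_contMDiffOn (sm_c α)
  · refine lap (g := fun j z => l α (f z) j) (an α f hf) α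
      (Eventually.of_forall fun z => s_a α _) ?_
    by_contra hc
    push Not at hc
    have a1 := (an α f hf (o1 α)).differentiableAt.hasDerivAt
    have a2 := (an α f hf (o2 α)).differentiableAt.hasDerivAt
    rw [hc] at a1 a2
    simp only [l, s_1, s_2] at a1 a2
    have a : HasDerivAt (fun z => c α (f z)) 0 0 := a1.prodMk a2
    have e : f =ᶠ[𝓝 0] ci α ∘ fun z => c α (f z) := by
      filter_upwards [ball_mem_nhds (0:ℂ) zero_lt_one] with z hz using (ci_c (hf.2 hz)).symm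
    apply h0
    have e2 := mfderiv_comp (f := fun z => c α (f z)) 0 (md_ci α _)
      a.differentiableAt.mdifferentiableAt
    have e3 : mfderiv 𝓘(ℂ) 𝓘(ℂ, E) (fun z => c α (f z)) 0 = 0 := by
      rw [mfderiv_eq_fderiv, a.hasFDerivAt.fderiv]
      ext <;> simp <;> rfl
    rw [e3, ContinuousLinearMap.comp_zero] at e2
    exact e.mfderiv_eq.trans e2
  · have ha := hf.mono inter_subset_left
    have hb := hf.mono inter_subset_right
    set h : ℂ → ℂ := fun z => l α (f z) β ^ 2 with hh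
    have hha : AnalyticAt ℂ h 0 := (an α f ha β).pow 2
    have hm := hf.2
    have hne : h 0 ≠ 0 := by
      have := hm (mem_ball_self zero_lt_one)
      exact pow_ne_zero 2 (rel this.1 this.2).1
    have e : (fun z => Real.log (R (l α (f z)))) =ᶠ[𝓝 0]
        (fun z => Real.log (R (l β (f z)))) + fun z => Real.log ‖h z‖ := by
      filter_upwards [ball_mem_nhds (0:ℂ) zero_lt_one] with z hz
      obtain ⟨h1, h3⟩ := rel (hm hz).1 (hm hz).2
      have e2 : ∀ w : ℂ, w.re ^ 2 + w.im ^ 2 = ‖w‖ ^ 2 := fun w => by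
        rw [Complex.sq_norm, Complex.normSq_apply]; ring
      have : R (l α (f z)) = R (l β (f z)) * ‖h z‖ := by
        rw [h3]
        simp only [R, e2, Finset.sum_mul, hh]
        refine Finset.sum_congr rfl fun j _ => ?_
        rw [norm_pow, ← mul_pow, ← norm_mul]
        congr 2
        simp only [Pi.smul_apply, smul_eq_mul]
        field_simp
      rw [this]
      exact Real.log_mul (R_pos β _).ne' (norm_ne_zero_iff.2 (pow_ne_zero 2 h1))
    have hH := hha.harmonicAt_log_norm hne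
    rw [(InnerProductSpace.laplacian_congr_nhds e).eq_of_nhds, ContDiffAt.laplacian_add ?_ hH.1,
      hH.2.eq_of_nhds]
    · simp
    · exact (cN (g := fun j z => l β (f z) j) (an β f hb)).log (R_pos β _).ne'

theorem result : ∃ (X : Type) (_ : MetricSpace X) (_ : CompactSpace X) (_ : ConnectedSpace X)
    (_ : ChartedSpace (ℂ × ℂ) X) (_ : IsManifold 𝓘(ℂ, ℂ × ℂ) ω X), Kahler X ∧
    ∀ n ≥ 1, ∀ r ∈ Ioo (0 : ℝ) 1, ∃ f : ℕ → (Fin n → ℂ) × ℂ → X,
      (∀ k, MDifferentiable 𝓘(ℂ, (Fin n → ℂ) × ℂ) 𝓘(ℂ, ℂ × ℂ) (f k)) ∧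
      (∀ p ∈ Hartogs n r, EquicontinuousAt f p) ∧
      ∃ p ∈ ball (0 : (Fin n → ℂ) × ℂ) 1, ¬EquicontinuousAt f p := by
  refine ⟨X, inferInstance, inferInstance, inferInstance, inferInstance, inferInstance, kahler,
    fun n hn r hr => ?_⟩
  set i : Fin n := ⟨0, hn⟩
  set a : ℝ := 1 - r / 2 with ha
  have ha0 : 0 < a := by linarith [hr.2]
  set F : ((Fin n → ℂ) × ℂ) × ℝ → P := fun x => ![x.1.1 i - a, x.1.2, x.2] with hF
  have hFc : Continuous F := continuous_pi fun j => by fin_cases j <;> simp [hF] <;> fun_prop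
  have hε : ∀ k : ℕ, (0 : ℝ) < 1 / (k + 1) := fun k => by positivity
  have hne : ∀ (k : ℕ) z, F (z, 1 / (k + 1)) ≠ 0 := fun k z h =>
    (hε k).ne' (Complex.ofReal_eq_zero.1 (congrFun h 2))
  refine ⟨fun k z => mk _ (hne k z), fun k => md_mk ?_ _, fun p hp => ?_,
    (fun _ => a, 0), ?_, fun h => ?_⟩
  · exact differentiable_pi.2 fun j => by fin_cases j <;> simp [hF] <;> fun_prop
  · have hp0 : ∀ y : ℝ, F (p, y) ≠ 0 := fun y h => by
      have h0 : p.1 i = a := by simpa [hF, sub_eq_zero] using congrFun h 0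
      have h1 : p.2 = 0 := by simpa [hF] using congrFun h 1
      rcases hp with hp | hp
      · have := (norm_le_pi_norm p.1 i).trans_lt (mem_ball_zero_iff.1 hp.1)
        rw [h0, Complex.norm_real, Real.norm_of_nonneg ha0.le] at this
        linarith [hr.1]
      · have := hp.2.1
        rw [h1, norm_zero] at this
        linarith [hr.1]
    rw [Metric.equicontinuousAt_iff_right]
    intro δ hδ
    have := (isCompact_Icc (a := (0:ℝ)) (b := 1)).eventually_forall_of_forall_eventually (x₀ := p)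
      (P := fun q y => dist (Φ (F (p, y))) (Φ (F (q, y))) < δ) fun y _ => by
        have c1 : ContinuousAt (fun z : ((Fin n → ℂ) × ℂ) × ℝ => Φ (F (p, z.2))) (p, y) :=
          ContinuousAt.comp (f := fun z : ((Fin n → ℂ) × ℂ) × ℝ => F (p, z.2)) (Φ_cont (hp0 y))
            (by fun_prop)
        have c2 : ContinuousAt (fun z => Φ (F z)) (p, y) :=
          ContinuousAt.comp (f := F) (Φ_cont (hp0 y)) hFc.continuousAt
        exact (c1.dist c2).eventually (gt_mem_nhds (by simpa using hδ))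
    filter_upwards [this] with q hq k
    exact hq _ ⟨(hε k).le, by rw [div_le_one (by positivity)]; simp⟩
  · rw [mem_ball_zero_iff, Prod.norm_def, max_lt_iff]
    refine ⟨(pi_norm_lt_iff one_pos).2 fun _ => ?_, by simp⟩
    rw [Complex.norm_real, Real.norm_of_nonneg ha0.le]; linarith [hr.1]
  · obtain ⟨δ, hδ, h2⟩ := Metric.equicontinuousAt_iff.1 h (1 / 2) (by norm_num)
    obtain ⟨k, hk⟩ := exists_nat_one_div_lt hδ
    have h3 := h2 (fun _ => a, ((1 / (k + 1) : ℝ) : ℂ)) (by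
      rw [Prod.dist_eq, dist_self, dist_zero_right, Complex.norm_real, Real.norm_of_nonneg (hε k).le]
      exact max_lt hδ hk) k
    have h6 : ∀ A B : Fin 3 → Fin 3 → ℂ, dist (A 2 2) (B 2 2) ≤ dist A B := fun A B =>
      (dist_le_pi_dist (A 2) (B 2) 2).trans (dist_le_pi_dist A B 2)
    have h4 := (h6 _ _).trans_lt (show dist (Φ _) (Φ _) < _ from h3)
    have h5 : ((1 / (k + 1) : ℝ) : ℂ) ≠ 0 := by exact_mod_cast (hε k).ne'
    generalize (1 / (k + 1) : ℝ) = y at h4 h5
    have e1 : Φ (F ((fun _ => a, 0), y)) 2 2 = 1 := by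
      simp [Φ, nn, hF, Fin.sum_univ_three]
      exact_mod_cast h5
    have e2 : Φ (F ((fun _ => a, y), y)) 2 2 = 1 / 2 := by
      simp [Φ, nn, hF, Fin.sum_univ_three]; field_simp; ring
    rw [e1, e2, Complex.dist_eq] at h4
    norm_num at h4

end Pool.Agent.Results.MP_7ec995_an.Counter
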